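import Pool.Agent.Lib.MP_d48993_lc.Interfaces

/-!
# Project CUT, modules ORD and DENS
-/

set_option autoImplicit false

namespace Pool.Agent.Lib.MP_d48993_lc.H7

open Pool.Agent.Lib.MP_d48993_lc

variable {Tr : ℕ → List ℕ → Prop} {G : ℕ → ℕ}

theorem te_mono {E E' : List ℕ} (h : E ⊆ E') {s : List ℕ} (hs : TE Tr E s) : TE Tr E' s := by
  cases s with
  | nil => trivial
  | cons e s => exact ⟨h hs.1, hs.2⟩

theorem te_pc (hTr : ∀ e, PC (Tr e)) (E : List ℕ) : PC (TE Tr E) := by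
  intro σ τ h hτ
  cases σ with
  | nil => trivial
  | cons e s =>
    cases τ with
    | nil => simp at h
    | cons e' t =>
      rw [List.cons_prefix_cons] at h
      obtain ⟨rfl, h2⟩ := h
      exact ⟨hτ.1, hTr e _ _ h2 hτ.2⟩

theorem mem_resT {T : List ℕ → Prop} {c : Cnd} {p : List ℕ × List ℕ} :
    p ∈ (resT T c).2 ↔ p ∈ c.2 ∧ T p.1 := by
  classical
  simp [resT]

theorem resT_eq {T : List ℕ → Prop} {c : Cnd} (h : ∀ p ∈ c.2, T p.1) : resT T c = c := by
  classical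
  unfold resT
  have h1 : c.2.filter (fun p => T p.1) = c.2 := by
    rw [List.filter_eq_self]
    intro p hp
    simpa using h p hp
  rw [h1]

theorem valid_res (hTr : ∀ e, PC (Tr e)) {E E' : List ℕ} {c : Cnd}
    (h : Valid (TE Tr E') (resT (TE Tr E') c).2) (hE : E ⊆ E') :
    Valid (TE Tr E) (resT (TE Tr E) c).2 := by
  have hsub : ∀ p ∈ (resT (TE Tr E) c).2, p ∈ (resT (TE Tr E') c).2 := by
    intro p hp
    rw [mem_resT] at hp ⊢
    exact ⟨hp.1, te_mono hE hp.2⟩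
  refine ⟨?_, ?_, ?_, ?_, ?_⟩
  · have h1 := mem_resT.1 h.root
    exact mem_resT.2 ⟨h1.1, trivial⟩
  · intro p hp
    exact ⟨(mem_resT.1 hp).2, (h.mem p (hsub p hp)).2⟩
  · intro p hp p' hp'
    exact h.emb p (hsub p hp) p' (hsub p' hp')
  · intro p hp p' hp'
    exact h.len p (hsub p hp) p' (hsub p' hp')
  · intro p hp hne
    obtain ⟨p', hp', h1⟩ := h.parent p (hsub p hp) hne
    refine ⟨p', mem_resT.2 ⟨(mem_resT.1 hp').1, ?_⟩, h1⟩
    rw [h1]
    exact te_pc hTr E _ _ (List.dropLast_prefix _) (mem_resT.1 hp).2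

theorem ext_res (hTr : ∀ e, PC (Tr e)) {E E' : List ℕ} {F : List (List ℕ)} {c c' : Cnd}
    (hE : E ⊆ E') (h : Ext (TE Tr E') F c (resT (TE Tr E') c')) :
    Ext (TE Tr E) F (resT (TE Tr E) c) (resT (TE Tr E) c') := by
  refine ⟨valid_res hTr h.valid hE, h.px, ?_, ?_, ?_⟩
  · intro p hp
    rw [mem_resT] at hp ⊢
    exact ⟨(mem_resT.1 (h.sub p hp.1)).1, hp.2⟩
  · intro p hp hp2 p' hp' hpp π hπ hπp
    have h1 := mem_resT.1 hp
    have h2 := mem_resT.1 hp'
    refine h.frozen p (mem_resT.2 ⟨h1.1, te_mono hE h1.2⟩) ?_ p'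
      (mem_resT.2 ⟨h2.1, te_mono hE h2.2⟩) hpp π hπ hπp
    intro h3
    exact hp2 (mem_resT.2 ⟨h3, h1.2⟩)
  · intro n hn s ρ hf hs
    have h1 := h.fact n hn s ρ hf (te_mono hE hs)
    exact mem_resT.2 ⟨(mem_resT.1 h1).1, hs⟩

theorem ord (ht : ExtTransStatement) : OrdStatement := by
  intro Tr G hTr
  refine ⟨?_, ?_, ?_, ?_⟩
  · intro P
    refine ⟨List.Subset.refl _, List.Subset.refl _, ?_⟩
    rw [resT_eq fun p hp => (P.valid.mem p hp).1]
    exact ht.1 _ _ _ P.valid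
  · intro P P' P'' h h'
    refine ⟨fun x hx => h'.1 (h.1 hx), fun x hx => h'.2.1 (h.2.1 hx), ?_⟩
    exact ht.2 _ _ _ _ _ _ h.2.1 h.2.2 (ext_res hTr h.1 h'.2.2)
  · intro E q x hv
    exact resT_eq fun p hp => (hv.mem p hp).1
  · intro P P' _ p hp
    exact P'.safe p (mem_resT.1 hp).1

/-! ### DENS -/

/-- change the condition, keep `E` and `F` -/
theorem step_le (ho : OrdStatement) (hTr : ∀ e, PC (Tr e)) (P : Cond3 Tr G) {c' : Cnd}
    (h : Ext (TE Tr P.E) P.F P.c c') (hs : Safe G c') :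
    ∃ P' : Cond3 Tr G, P3Le P P' ∧ P'.E = P.E ∧ P'.F = P.F ∧ P'.c = c' := by
  refine ⟨⟨P.E, P.F, c', P.good, P.fok, h.valid, hs⟩, ⟨List.Subset.refl _, List.Subset.refl _, ?_⟩,
    rfl, rfl, rfl⟩
  have h1 := (ho Tr G hTr).2.2.1 P.E c'.2 c'.1 h.valid
  have h2 : resT (TE Tr P.E) c' = c' := h1
  show Ext (TE Tr P.E) P.F P.c (resT (TE Tr P.E) c')
  rw [h2]
  exact h

/-- append a true fact `j` times -/
theorem append_fact (P : Cond3 Tr G) {t ρ : List ℕ} (h : (t, ρ) ∈ P.c.2) (j : ℕ) :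
    Ext (TE Tr P.E) P.F P.c (P.c.1 ++ List.replicate j (Encodable.encode (t, ρ)), P.c.2) := by
  refine ⟨P.valid, List.prefix_append _ _, fun p hp => hp, ?_, ?_⟩
  · intro p hp hp2
    exact absurd hp hp2
  · intro n hn s ρ' hf _
    rw [List.drop_left] at hn
    have h1 := List.eq_of_mem_replicate hn
    have h2 : n = Encodable.encode (s, ρ') := hf
    rw [h1] at h2
    have h3 := Encodable.encode_injective h2
    show (s, ρ') ∈ P.c.2
    rw [← h3]
    exact h

/-- a new image -/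
theorem add_node (ho : OrdStatement) (he : ExtendStatement) (hTr : ∀ e, PC (Tr e))
    (P : Cond3 Tr G) {s ρ : List ℕ} {k : ℕ} (h : (s, ρ) ∈ P.c.2) (hT : TE Tr P.E (s ++ [k])) :
    ∃ P' : Cond3 Tr G, P3Le P P' ∧ ∃ ρ', (s ++ [k], ρ') ∈ P'.c.2 := by
  by_cases hn : ∃ ρ', (s ++ [k], ρ') ∈ P.c.2
  · exact ⟨P, (ho Tr G hTr).1 P, hn⟩
  · push Not at hn
    obtain ⟨ρ', -, h1, h2⟩ := he G (TE Tr P.E) P.F P.c s ρ k 0 P.fok P.valid P.safe h hT hn
    obtain ⟨P', hP', -, -, hc⟩ := step_le ho hTr P h1 h2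
    refine ⟨P', hP', ρ', ?_⟩
    rw [hc]
    exact List.mem_cons_self

theorem mem_of_le {P P' : Cond3 Tr G} (h : P3Le P P') {p : List ℕ × List ℕ} (hp : p ∈ P.c.2) :
    p ∈ P'.c.2 := (mem_resT.1 (h.2.2.sub p hp)).1

theorem exists_node (ho : OrdStatement) (he : ExtendStatement) (hTr : ∀ e, PC (Tr e)) (e : ℕ)
    (s : List ℕ) : Tr e s → ∀ P : Cond3 Tr G, e ∈ P.E →
      ∃ P', P3Le P P' ∧ ∃ ρ, (e :: s, ρ) ∈ P'.c.2 := by
  induction s using List.reverseRecOn with
  | nil =>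
    intro hs P heP
    have h1 : TE Tr P.E ([] ++ [e]) := ⟨heP, hs⟩
    exact add_node ho he hTr P P.valid.root h1
  | append_singleton s k ih =>
    intro hs P heP
    obtain ⟨P1, h1, ρ, h2⟩ := ih (hTr e _ _ (List.prefix_append _ _) hs) P heP
    have h3 : TE Tr P1.E (e :: s ++ [k]) := ⟨h1.1 heP, hs⟩
    obtain ⟨P2, h4, ρ', h5⟩ := add_node ho he hTr P1 h2 h3
    exact ⟨P2, (ho Tr G hTr).2.1 _ _ _ h1 h4, ρ', h5⟩

theorem dens (ho : OrdStatement) (he : ExtendStatement) : DensStatement := by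
  intro Tr G hTr
  refine ⟨?_, ?_, fun e s hs P hP => exists_node ho he hTr e s hs P hP, ?_, ?_⟩
  · refine ⟨⟨[], [], ([], [([], [])]), by simp, by simp [FOk], ?_, ?_⟩, trivial⟩
    · refine ⟨by simp, ?_, ?_, ?_, ?_⟩
      · intro p hp
        rw [List.mem_singleton] at hp
        subst hp
        exact ⟨trivial, by simp⟩
      · intro p hp p' hp'
        rw [List.mem_singleton] at hp hp'
        subst hp hp'
        simp
      · intro p hp p' hp' _
        rw [List.mem_singleton] at hp hp'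
        subst hp hp'
        rfl
      · intro p hp hne
        rw [List.mem_singleton] at hp
        subst hp
        exact absurd rfl hne
    · intro p hp
      rw [List.mem_singleton] at hp
      subst hp
      exact ⟨by simp, by simp⟩
  · intro e hne P
    have h0 := (ho Tr G hTr).1 P
    refine ⟨⟨e :: P.E, P.F, P.c, ?_, P.fok, ?_, P.safe⟩, ⟨?_, List.Subset.refl _, h0.2.2⟩, ?_⟩
    · intro e' he'
      rcases List.mem_cons.1 he' with rfl | h
      · exact hne
      · exact P.good e' h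
    · exact ⟨P.valid.root, fun p hp => ⟨te_mono (List.subset_cons_self _ _) (P.valid.mem p hp).1,
        (P.valid.mem p hp).2⟩, P.valid.emb, P.valid.len, P.valid.parent⟩
    · exact List.subset_cons_self _ _
    · exact List.mem_cons_self
  · intro m P
    obtain ⟨P', hP', -, -, hc⟩ := step_le ho hTr P (append_fact P P.valid.root m) P.safe
    refine ⟨P', hP', ?_⟩
    rw [hc]
    simp
  · intro m e s ρ P h
    obtain ⟨P', hP', -, -, hc⟩ := step_le ho hTr P (append_fact P h (m + 1)) P.safe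
    refine ⟨P', hP', P.c.1.length + m, ?_, by omega, ?_⟩
    · rw [hc]
      simp
    · have h1 : P'.c.1 = P.c.1 ++ List.replicate (m + 1) (Encodable.encode (e :: s, ρ)) := by
        rw [hc]
      unfold Fact
      simp only [h1]
      rw [List.getElem_append_right (by omega), List.getElem_replicate]

end Pool.Agent.Lib.MP_d48993_lc.H7
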